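import Mathlib

/-!
A Hadamard matrix of order 28 from the two-circulant-core construction which is not cocyclic.
-/

namespace Pool.Agent.Results.MP_e1608d_co.NotCocyclic

open Matrix

/-- `H` is a Hadamard matrix: entries `±1` and `H Hᵀ = n I`. -/
def IsHadamard {I : Type} [Fintype I] [DecidableEq I] (H : Matrix I I ℤ) : Prop :=
  (∀ i j, H i j = 1 ∨ H i j = -1) ∧ H * Hᵀ = (Fintype.card I : ℤ) • (1 : Matrix I I ℤ)

/-- `H` is obtained from `M` by permuting rows, permuting columns and multiplying rows and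
columns by `-1`. -/
def Equivalent {I J : Type} (H : Matrix I I ℤ) (M : Matrix J J ℤ) : Prop :=
  ∃ (e f : I ≃ J) (r c : I → ℤ), (∀ i, r i = 1 ∨ r i = -1) ∧ (∀ j, c j = 1 ∨ c j = -1) ∧
    ∀ i j, H i j = r i * c j * M (e i) (f j)

/-- `ψ` is a 2-cocycle with values `±1`. -/
def IsCocycle {G : Type} [Group G] (ψ : G → G → ℤ) : Prop :=
  (∀ g h, ψ g h = 1 ∨ ψ g h = -1) ∧
    ∀ g h k, ψ g h * ψ (g * h) k = ψ h k * ψ g (h * k)

/-- `H` is cocyclic: equivalent to a Hadamard matrix `[ψ(g,h)]` for some 2-cocycle `ψ` on some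
finite group `G`. -/
def IsCocyclic {I : Type} (H : Matrix I I ℤ) : Prop :=
  ∃ (G : Type) (_ : Group G) (_ : Fintype G) (_ : DecidableEq G) (ψ : G → G → ℤ),
    IsCocycle ψ ∧ IsHadamard (Matrix.of ψ) ∧ Equivalent H (Matrix.of ψ)

/-- The two-circulant-core matrix `H(A,B)`. -/
def twoCore {l : ℕ} (A B : Matrix (Fin l) (Fin l) ℤ) :
    Matrix (Fin 2 ⊕ (Fin l ⊕ Fin l)) (Fin 2 ⊕ (Fin l ⊕ Fin l)) ℤ :=
  Matrix.fromBlocks !![-1, -1; -1, 1]
    (Matrix.of fun i => Sum.elim (fun _ => 1) (fun _ => if i = 0 then 1 else -1))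
    (Matrix.of fun i j => Sum.elim (fun _ => 1) (fun _ => if j = 0 then 1 else -1) i)
    (Matrix.fromBlocks A B Bᵀ (-Aᵀ))

/-- The number of ordered triples of rows whose product with row `i` has sum `±20`. -/
def profile {I : Type} [Fintype I] [DecidableEq I] (M : Matrix I I ℤ) (i : I) : ℕ :=
  ∑ a, ∑ b, ∑ c, if |∑ j, M i j * M a j * M b j * M c j| = 20 then 1 else 0

theorem abs_pm {x : ℤ} (h : x = 1 ∨ x = -1) : |x| = 1 := by
  rcases h with h | h <;> simp [h]

theorem sq_pm {x : ℤ} (h : x = 1 ∨ x = -1) : x * x = 1 := by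
  rcases h with h | h <;> simp [h]

theorem profile_equiv {I J : Type} [Fintype I] [DecidableEq I] [Fintype J] [DecidableEq J]
    (H : Matrix I I ℤ) (M : Matrix J J ℤ) (e f : I ≃ J) (r c : I → ℤ)
    (hr : ∀ i, r i = 1 ∨ r i = -1) (hc : ∀ j, c j = 1 ∨ c j = -1)
    (h : ∀ i j, H i j = r i * c j * M (e i) (f j)) (i : I) :
    profile H i = profile M (e i) := by
  unfold profile
  rw [← Equiv.sum_comp e]
  apply Finset.sum_congr rfl
  intro a _
  rw [← Equiv.sum_comp e]
  apply Finset.sum_congr rfl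
  intro b _
  rw [← Equiv.sum_comp e]
  apply Finset.sum_congr rfl
  intro d _
  have : |∑ j, H i j * H a j * H b j * H d j| =
      |∑ j, M (e i) j * M (e a) j * M (e b) j * M (e d) j| := by
    have h1 : ∑ j, H i j * H a j * H b j * H d j = (r i * r a * r b * r d) *
        ∑ j, M (e i) j * M (e a) j * M (e b) j * M (e d) j := by
      rw [← Equiv.sum_comp f, Finset.mul_sum]
      apply Finset.sum_congr rfl
      intro j _
      rw [h, h, h, h]
      have h2 := sq_pm (hc j)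
      calc r i * c j * M (e i) (f j) * (r a * c j * M (e a) (f j)) *
            (r b * c j * M (e b) (f j)) * (r d * c j * M (e d) (f j))
          = (c j * c j) * (c j * c j) * (r i * r a * r b * r d *
            (M (e i) (f j) * M (e a) (f j) * M (e b) (f j) * M (e d) (f j))) := by ring
        _ = _ := by rw [h2]; ring
    rw [h1, abs_mul, abs_mul, abs_mul, abs_mul, abs_pm (hr i), abs_pm (hr a), abs_pm (hr b),
      abs_pm (hr d)]
    ring
  rw [this]

theorem profile_cocycle {G : Type} [Group G] [Fintype G] [DecidableEq G] (ψ : G → G → ℤ)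
    (hψ : IsCocycle ψ) (g h : G) : profile (Matrix.of ψ) (g * h) = profile (Matrix.of ψ) g := by
  unfold profile
  rw [← Equiv.sum_comp (Equiv.mulRight h)]
  apply Finset.sum_congr rfl
  intro a _
  rw [← Equiv.sum_comp (Equiv.mulRight h)]
  apply Finset.sum_congr rfl
  intro b _
  rw [← Equiv.sum_comp (Equiv.mulRight h)]
  apply Finset.sum_congr rfl
  intro d _
  simp only [Equiv.coe_mulRight, Matrix.of_apply]
  have key : ∀ x k, ψ (x * h) k = ψ x h * (ψ h k * ψ x (h * k)) := by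
    intro x k
    have h1 := hψ.2 x h k
    have h2 := sq_pm (hψ.1 x h)
    calc ψ (x * h) k = (ψ x h * ψ x h) * ψ (x * h) k := by rw [h2, one_mul]
      _ = ψ x h * (ψ x h * ψ (x * h) k) := by ring
      _ = _ := by rw [h1]
  have : |∑ j, ψ (g * h) j * ψ (a * h) j * ψ (b * h) j * ψ (d * h) j| =
      |∑ j, ψ g j * ψ a j * ψ b j * ψ d j| := by
    have h1 : ∑ j, ψ (g * h) j * ψ (a * h) j * ψ (b * h) j * ψ (d * h) j =
        (ψ g h * ψ a h * ψ b h * ψ d h) * ∑ j, ψ g j * ψ a j * ψ b j * ψ d j := by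
      rw [← Equiv.sum_comp (Equiv.mulLeft h) (fun j => ψ g j * ψ a j * ψ b j * ψ d j),
        Finset.mul_sum]
      apply Finset.sum_congr rfl
      intro j _
      rw [key, key, key, key, Equiv.coe_mulLeft]
      have h2 := sq_pm (hψ.1 h j)
      calc ψ g h * (ψ h j * ψ g (h * j)) * (ψ a h * (ψ h j * ψ a (h * j))) *
            (ψ b h * (ψ h j * ψ b (h * j))) * (ψ d h * (ψ h j * ψ d (h * j)))
          = (ψ h j * ψ h j) * (ψ h j * ψ h j) * (ψ g h * ψ a h * ψ b h * ψ d h *
            (ψ g (h * j) * ψ a (h * j) * ψ b (h * j) * ψ d (h * j))) := by ring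
        _ = _ := by rw [h2]; ring
    rw [h1, abs_mul, abs_mul, abs_mul, abs_mul, abs_pm (hψ.1 g h), abs_pm (hψ.1 a h),
      abs_pm (hψ.1 b h), abs_pm (hψ.1 d h)]
    ring
  exact if_congr (by rw [← this]) rfl rfl

/-- All rows of a cocyclic matrix have the same profile. -/
theorem profile_const {I : Type} [Fintype I] [DecidableEq I] (H : Matrix I I ℤ)
    (hH : IsCocyclic H) (i i' : I) : profile H i = profile H i' := by
  obtain ⟨G, _, _, _, ψ, hψ, -, e, f, r, c, hr, hc, h⟩ := hH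
  rw [profile_equiv H (Matrix.of ψ) e f r c hr hc h i,
    profile_equiv H (Matrix.of ψ) e f r c hr hc h i']
  have := profile_cocycle ψ hψ (e i') ((e i')⁻¹ * e i)
  rw [← this]
  congr 1
  group

/-- sign of a bit -/
def sgn (b : Bool) : ℤ := if b then -1 else 1

theorem sgn_xor (a b : Bool) : sgn (a ^^ b) = sgn a * sgn b := by
  cases a <;> cases b <;> rfl

/-- number of ones among the four lowest bits -/
def pn (y : ℕ) : ℕ := (0x4332322132212110 >>> (4 * (y % 16))) % 16

/-- number of ones among the 28 lowest bits -/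
def pc (x : ℕ) : ℕ := pn x + pn (x / 16) + pn (x / 256) + pn (x / 4096) + pn (x / 65536) +
  pn (x / 1048576) + pn (x / 16777216)

theorem nib (x : ℕ) : sgn (x.testBit 0) + sgn (x.testBit 1) + sgn (x.testBit 2) +
    sgn (x.testBit 3) = 4 - 2 * (pn x : ℤ) := by
  have h : ∀ i, i < 4 → x.testBit i = (x % 16).testBit i := by
    intro i hi
    have := Nat.testBit_mod_two_pow x 4 i
    rw [show (2 : ℕ) ^ 4 = 16 by norm_num] at this
    rw [this]
    simp [hi]
  rw [h 0 (by norm_num), h 1 (by norm_num), h 2 (by norm_num), h 3 (by norm_num)]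
  have hp : pn x = pn (x % 16) := by
    unfold pn
    rw [Nat.mod_mod]
  rw [hp]
  have hlt : x % 16 < 16 := Nat.mod_lt _ (by norm_num)
  generalize x % 16 = y at hlt ⊢
  revert hlt
  revert y
  decide

theorem pc_spec (x : ℕ) : ∑ j : Fin 28, sgn (x.testBit j) = 28 - 2 * (pc x : ℤ) := by
  have h : ∀ k i, x.testBit (k + i) = (x / 2 ^ k).testBit i := by
    intro k i
    rw [Nat.testBit_div_two_pow, Nat.add_comm]
  have n0 := nib x
  have n1 := nib (x / 16)
  have n2 := nib (x / 256)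
  have n3 := nib (x / 4096)
  have n4 := nib (x / 65536)
  have n5 := nib (x / 1048576)
  have n6 := nib (x / 16777216)
  have e1 : ∀ i, (x / 16).testBit i = x.testBit (4 + i) := fun i => by rw [h]; norm_num
  have e2 : ∀ i, (x / 256).testBit i = x.testBit (8 + i) := fun i => by rw [h]; norm_num
  have e3 : ∀ i, (x / 4096).testBit i = x.testBit (12 + i) := fun i => by rw [h]; norm_num
  have e4 : ∀ i, (x / 65536).testBit i = x.testBit (16 + i) := fun i => by rw [h]; norm_num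
  have e5 : ∀ i, (x / 1048576).testBit i = x.testBit (20 + i) := fun i => by rw [h]; norm_num
  have e6 : ∀ i, (x / 16777216).testBit i = x.testBit (24 + i) := fun i => by rw [h]; norm_num
  simp only [e1, e2, e3, e4, e5, e6] at n1 n2 n3 n4 n5 n6
  norm_num only at n0 n1 n2 n3 n4 n5 n6
  unfold pc
  push_cast
  simp only [Fin.sum_univ_succ, Fin.sum_univ_zero]
  simp only [Fin.val_zero, Fin.val_succ]
  norm_num only
  linarith

/-- The rows of the matrix as binary numbers (bit one stands for the entry `-1`). -/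
def rows : List ℕ := [0x3, 0xfff8001, 0x135835c, 0x26b06b8, 0x4d60d70, 0x9ac1ae0, 0x358b5c0,
  0x6b16b80, 0xd625704, 0xac4ae0c, 0x589dc18, 0xb133834, 0x626f068, 0xc4d60d4, 0x89ac1ac,
  0x29f5646, 0x53e2c8e, 0xa7c591a, 0x4f8b236, 0x9f1646a, 0x3e2c8d6, 0x7c511ae, 0xf8a235a,
  0xf14c6b2, 0xe298d66, 0xc539aca, 0x8a7b592, 0x14feb22]

/-- indicator of a popcount equal to `4` or `24` -/
def g (x : ℕ) : ℕ := if pc x = 4 then 1 else if pc x = 24 then 1 else 0

theorem count0 : (rows.map fun a => (rows.map fun b => (rows.map fun c =>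
    g (0x3 ^^^ a ^^^ b ^^^ c)).sum).sum).sum = 78 := by decide +kernel

theorem count2 : (rows.map fun a => (rows.map fun b => (rows.map fun c =>
    g (0x135835c ^^^ a ^^^ b ^^^ c)).sum).sum).sum = 54 := by decide +kernel

theorem sum_rows (F : ℕ → ℕ) : ∑ i : Fin 28, F (rows.get i) = (rows.map F).sum := by
  have := Fin.sum_univ_getElem (rows.map F)
  rw [← this]
  rfl

/-- The circulant `A`. -/
def Acirc : Matrix (Fin 13) (Fin 13) ℤ := Matrix.circulant fun k => sgn ((215 : ℕ).testBit (-k).val)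

/-- The circulant `B`. -/
def Bcirc : Matrix (Fin 13) (Fin 13) ℤ := Matrix.circulant fun k => sgn ((619 : ℕ).testBit (-k).val)

/-- The index equivalence. -/
def e0 : Fin 28 ≃ Fin 2 ⊕ (Fin 13 ⊕ Fin 13) :=
  (((Equiv.sumCongr (Equiv.refl _) finSumFinEquiv).trans
    (finSumFinEquiv (m := 2) (n := 26)))).symm

theorem rows_spec : ∀ i j : Fin 28, twoCore Acirc Bcirc (e0 i) (e0 j) =
    sgn ((rows.get i).testBit j) := by
  decide +kernel

theorem profile_eq (i : Fin 28) : profile (twoCore Acirc Bcirc) (e0 i) =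
    (rows.map fun a => (rows.map fun b => (rows.map fun c =>
    g (rows.get i ^^^ a ^^^ b ^^^ c)).sum).sum).sum := by
  unfold profile
  rw [← Equiv.sum_comp e0]
  rw [← sum_rows (fun a => (rows.map fun b => (rows.map fun c =>
    g (rows.get i ^^^ a ^^^ b ^^^ c)).sum).sum)]
  apply Finset.sum_congr rfl
  intro a _
  rw [← Equiv.sum_comp e0]
  rw [← sum_rows (fun b => (rows.map fun c =>
    g (rows.get i ^^^ rows.get a ^^^ b ^^^ c)).sum)]
  apply Finset.sum_congr rfl
  intro b _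
  rw [← Equiv.sum_comp e0]
  rw [← sum_rows (fun c => g (rows.get i ^^^ rows.get a ^^^ rows.get b ^^^ c))]
  apply Finset.sum_congr rfl
  intro c _
  have h1 : ∑ j, twoCore Acirc Bcirc (e0 i) j * twoCore Acirc Bcirc (e0 a) j *
      twoCore Acirc Bcirc (e0 b) j * twoCore Acirc Bcirc (e0 c) j =
      28 - 2 * (pc (rows.get i ^^^ rows.get a ^^^ rows.get b ^^^ rows.get c) : ℤ) := by
    rw [← pc_spec, ← Equiv.sum_comp e0]
    apply Finset.sum_congr rfl
    intro j _
    rw [rows_spec, rows_spec, rows_spec, rows_spec, Nat.testBit_xor, Nat.testBit_xor,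
      Nat.testBit_xor, sgn_xor, sgn_xor, sgn_xor]
  rw [h1]
  unfold g
  generalize pc (rows.get i ^^^ rows.get a ^^^ rows.get b ^^^ rows.get c) = y
  by_cases h4 : y = 4
  · subst h4
    norm_num
  · by_cases h24 : y = 24
    · subst h24
      norm_num
    · rw [if_neg h4, if_neg h24, if_neg]
      intro h
      rcases abs_eq (by norm_num : (0 : ℤ) ≤ 20) |>.1 h with h | h <;> omega

theorem circ_eq : Acirc * Acircᵀ + Bcirc * Bcircᵀ =
    (2 * (((13 : ℕ) : ℤ) + 1)) • (1 : Matrix (Fin 13) (Fin 13) ℤ) -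
      (2 : ℤ) • (Matrix.of fun _ _ => (1 : ℤ)) := by
  decide +kernel

theorem had1' : ∀ p : (Fin 2 ⊕ (Fin 13 ⊕ Fin 13)) × (Fin 2 ⊕ (Fin 13 ⊕ Fin 13)),
    twoCore Acirc Bcirc p.1 p.2 = 1 ∨ twoCore Acirc Bcirc p.1 p.2 = -1 := by
  decide +kernel

theorem had1 : ∀ i j : Fin 2 ⊕ (Fin 13 ⊕ Fin 13),
    twoCore Acirc Bcirc i j = 1 ∨ twoCore Acirc Bcirc i j = -1 := fun i j => had1' (i, j)

theorem had2 : twoCore Acirc Bcirc * (twoCore Acirc Bcirc)ᵀ =
    ((Fintype.card (Fin 2 ⊕ (Fin 13 ⊕ Fin 13)) : ℕ) : ℤ) •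
      (1 : Matrix (Fin 2 ⊕ (Fin 13 ⊕ Fin 13)) (Fin 2 ⊕ (Fin 13 ⊕ Fin 13)) ℤ) := by
  decide +kernel

theorem A_spec' : ∀ p : Fin 13 × Fin 13,
    Acirc p.1 p.2 = sgn ((215 : ℕ).testBit (p.2 - p.1).val) := by
  decide +kernel

theorem B_spec' : ∀ p : Fin 13 × Fin 13,
    Bcirc p.1 p.2 = sgn ((619 : ℕ).testBit (p.2 - p.1).val) := by
  decide +kernel

theorem A_spec : ∀ i j : Fin 13, Acirc i j = sgn ((215 : ℕ).testBit (j - i).val) :=
  fun i j => A_spec' (i, j)

theorem B_spec : ∀ i j : Fin 13, Bcirc i j = sgn ((619 : ℕ).testBit (j - i).val) :=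
  fun i j => B_spec' (i, j)

theorem had : IsHadamard (twoCore Acirc Bcirc) := ⟨had1, had2⟩

/-- Not every Hadamard matrix of the two-circulant-core construction is cocyclic. -/
theorem result : ¬ ∀ l : ℕ, Odd l → ∀ A B : Matrix (Fin l) (Fin l) ℤ,
    (∃ a : Fin l → ℤ, (∀ k, a k = 1 ∨ a k = -1) ∧ ∀ i j, A i j = a (j - i)) →
    (∃ b : Fin l → ℤ, (∀ k, b k = 1 ∨ b k = -1) ∧ ∀ i j, B i j = b (j - i)) →
    A * Aᵀ + B * Bᵀ =
      (2 * ((l : ℤ) + 1)) • (1 : Matrix (Fin l) (Fin l) ℤ) -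
        (2 : ℤ) • (Matrix.of fun _ _ => (1 : ℤ)) →
    IsHadamard (twoCore A B) → IsCocyclic (twoCore A B) := by
  intro h
  have h1 := h 13 (by decide) Acirc Bcirc
    ⟨fun k => sgn ((215 : ℕ).testBit k.val), by decide +kernel, A_spec⟩
    ⟨fun k => sgn ((619 : ℕ).testBit k.val), by decide +kernel, B_spec⟩
    circ_eq had
  have h2 := profile_const _ h1 (e0 0) (e0 2)
  rw [profile_eq, profile_eq] at h2
  have h3 : rows.get (0 : Fin 28) = 0x3 := rfl
  have h4 : rows.get (2 : Fin 28) = 0x135835c := rfl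
  rw [h3, h4, count0, count2] at h2
  norm_num at h2

end Pool.Agent.Results.MP_e1608d_co.NotCocyclic
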